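import Mathlib

namespace Pool.Agent.Results.MP_b3d406_nt.Auto
open PowerSeries Finset

/-- the series `1 / (1 - x^s)` -/
noncomputable def geo (s : ℕ) : ℤ⟦X⟧ := mk fun j => if s ∣ j then 1 else 0

/-- `S_{4,m}(n)`; the factors with `4^i > n` do not affect the coefficient of `x^n` -/
noncomputable def S (m n : ℕ) : ℤ :=
  coeff n (geo 1 ^ m * ∏ i ∈ range (n + 1), geo (4 ^ i) ^ (m * 3))

/-- `φ₄(N)`, the largest `s` with `4^s ∣ N` -/
noncomputable def phi4 (N : ℤ) : ℕ := sSup {s | 4 ^ s ∣ N}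

/-- the 4-kernel of a sequence -/
def kernel (e : ℕ → ℕ) : Set (ℕ → ℕ) := {f | ∃ i j, j < 4 ^ i ∧ f = fun n => e (4 ^ i * n + j)}

lemma num (k : ℕ) [k.AtLeastTwo] (f : ℤ⟦X⟧) (n : ℕ) :
    coeff n ((ofNat(k) : ℤ⟦X⟧) * f) = ofNat(k) * coeff n f := by
  rw [← map_ofNat (C (R := ℤ)) k, coeff_C_mul]

lemma nc (k : ℕ) (f : ℤ⟦X⟧) (n : ℕ) : coeff n ((k : ℤ⟦X⟧) * f) = k * coeff n f := by
  rw [← nsmul_eq_mul, map_nsmul, nsmul_eq_mul]

lemma p2 (k : ℕ) (f : ℤ⟦X⟧) (n : ℕ) : coeff n ((2 : ℤ⟦X⟧) ^ k * f) = 2 ^ k * coeff n f := by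
  simpa using nc (2 ^ k) f n

lemma geo_mul (s : ℕ) (hs : 0 < s) : geo s * (1 - X ^ s) = 1 := by
  ext n
  rw [mul_sub, mul_one, map_sub, coeff_mul_X_pow', coeff_one]
  simp only [geo, coeff_mk]
  by_cases h : s ≤ n
  · rw [if_pos h, if_neg (by omega : ¬ n = 0)]
    simp only [Nat.dvd_sub_iff_left h dvd_rfl, sub_self]
  · by_cases h0 : n = 0
    · simp [h0]; omega
    · simp [h, h0, Nat.not_dvd_of_pos_of_lt (Nat.pos_of_ne_zero h0) (not_le.1 h)]

/-- `x ↦ x⁴` -/
noncomputable def E : ℤ⟦X⟧ →ₐ[ℤ] ℤ⟦X⟧ := expand 4 (by norm_num)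

lemma EX : E X = X ^ 4 := expand_X _ _

lemma dec {f a b c d : ℤ⟦X⟧} (h : f = E a + X ^ 1 * E b + X ^ 2 * E c + X ^ 3 * E d) (j : ℕ) :
    coeff (4 * j) f = coeff j a ∧ coeff (4 * j + 1) f = coeff j b ∧
    coeff (4 * j + 2) f = coeff j c ∧ coeff (4 * j + 3) f = coeff j d := by
  simp only [h, map_add, coeff_X_pow_mul', E, coeff_expand]
  refine ⟨?_, ?_, ?_, ?_⟩ <;> split_ifs <;> first | omega | (simp only [add_zero, zero_add]; congr 2; omega)

/-- coefficients of `∏ (1 - x^(4^i))³` -/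
def K (n : ℕ) : ℤ :=
  if h : n = 0 then 1 else
    (if n % 4 = 0 then 1 else if n % 4 = 1 then -3 else if n % 4 = 2 then 3 else -1) * K (n / 4)
decreasing_by omega

lemma K4 (j : ℕ) : K (4 * j) = K j ∧ K (4 * j + 1) = -3 * K j ∧ K (4 * j + 2) = 3 * K j ∧
    K (4 * j + 3) = -K j := by
  refine ⟨?_, ?_, ?_, ?_⟩
  · rcases Nat.eq_zero_or_pos j with rfl | h
    · rfl
    · rw [K, dif_neg (by omega), if_pos (by omega), one_mul]; congr 1; omega
  all_goals
    rw [K, dif_neg (by omega)]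
    split_ifs <;> first | omega | (simp only [neg_mul, one_mul]; congr 3; omega) | (congr 2; omega)

lemma quad (n : ℕ) : ∃ j, n = 4 * j ∨ n = 4 * j + 1 ∨ n = 4 * j + 2 ∨ n = 4 * j + 3 := ⟨n / 4, by omega⟩

lemma K_odd (n : ℕ) : K n % 2 = 1 := by
  induction n using Nat.strong_induction_on with
  | _ n ih =>
    rcases Nat.eq_zero_or_pos n with rfl | h
    · rw [K]; rfl
    · obtain ⟨j, hj⟩ := quad n
      have := ih j (by omega)
      have := K4 j
      rcases hj with rfl | rfl | rfl | rfl <;> omega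

/-- the product series -/
noncomputable def KK : ℤ⟦X⟧ := mk K

lemma KK_eq : KK = (1 - X) ^ 3 * E KK := by
  have h := dec (f := (1 - X) ^ 3 * E KK) (a := KK) (b := -(3 * KK)) (c := 3 * KK) (d := -KK)
    (by simp only [map_neg, map_mul, map_ofNat]; ring)
  ext n
  obtain ⟨j, hj⟩ := quad n
  have := K4 j
  have h := h j
  simp only [map_neg, num] at h
  simp only [KK, coeff_mk] at h ⊢
  rcases hj with rfl | rfl | rfl | rfl <;> omega

/-- `1 / F` for `m = 1` -/
noncomputable def H : ℤ⟦X⟧ := (1 - X) * KK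

lemma H4 (j : ℕ) : coeff (4 * j) H = 2 * K j - coeff j H ∧ coeff (4 * j + 1) H = -4 * K j ∧
    coeff (4 * j + 2) H = 6 * K j ∧ coeff (4 * j + 3) H = -4 * K j := by
  have h := dec (f := H) (a := 2 * KK - H) (b := -(4 * KK)) (c := 6 * KK) (d := -(4 * KK)) (by
    simp only [H, map_neg, map_mul, map_ofNat, map_sub, map_one, EX]
    linear_combination (1 - X) * KK_eq) j
  simpa only [map_neg, map_sub, num, KK, coeff_mk, neg_mul] using h

lemma H0 : coeff 0 H = 1 := by
  have := (H4 0).1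
  rw [K] at this
  simp only [mul_zero, dite_true] at this
  omega

lemma exA : ∃ A, H = 1 + 2 * A := by
  have : ∀ n, (coeff n H - coeff n 1) % 2 = 0 := fun n => by
    induction n using Nat.strong_induction_on with
    | _ n ih =>
      rcases Nat.eq_zero_or_pos n with rfl | h
      · simp [H0]
      · obtain ⟨j, hj⟩ := quad n
        have := ih j (by omega)
        have := H4 j
        rw [coeff_one] at *
        rcases hj with rfl | rfl | rfl | rfl <;> split_ifs at * <;> omega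
  refine ⟨mk fun n => (coeff n H - coeff n 1) / 2, ?_⟩
  ext n
  have := this n
  rw [map_add, num, coeff_mk]
  omega

lemma Ht (t n : ℕ) : K (4 ^ t * n) = K n ∧
    coeff (4 ^ t * n) H = if t % 2 = 0 then coeff n H else 2 * K n - coeff n H := by
  induction t with
  | zero => simp
  | succ t ih =>
    rw [pow_succ', mul_assoc, (K4 _).1, (H4 _).1, ih.1, ih.2]
    split_ifs <;> omega

lemma exB : ∃ B, H ^ 2 = 1 + 4 * B ∧ (∀ t j, coeff (4 ^ t * (4 * j + 2)) B % 2 = 1) ∧
    ∀ j r, r = 1 ∨ r = 3 → coeff (4 * j + r) B % 4 = 2 ∧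
      ∀ t, coeff (4 ^ (t + 1) * (4 * j + r)) B % 8 = 0 := by
  obtain ⟨A, hA⟩ := exA
  have hB : H ^ 2 = 1 + 4 * (A + A ^ 2) := by rw [hA]; ring
  refine ⟨_, hB, ?_⟩
  generalize A + A ^ 2 = B at hB
  have e2 : KK ^ 2 = (1 - X) ^ 6 * E (KK ^ 2) := by
    rw [map_pow]; linear_combination (KK + (1 - X) ^ 3 * E KK) * KK_eq
  have e3 : H ^ 2 = (1 - X) ^ 2 * KK ^ 2 := by rw [H, mul_pow]
  generalize KK ^ 2 = k at e2 e3
  have hz := dec (f := X * k) (a := -(20 * (X * k))) (b := k + 15 * (X * k)) (c := -(6 * (k + X * k)))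
    (d := 15 * k + X * k) (by
      simp only [map_neg, map_mul, map_ofNat, map_add, EX]; linear_combination X * e2)
  have hw := dec (f := H ^ 2) (a := H ^ 2 + 72 * (X * k)) (b := -(8 * k + 56 * (X * k)))
    (c := 28 * (k + X * k)) (d := -(56 * k + 8 * (X * k))) (by
      simp only [e3, map_neg, map_mul, map_ofNat, map_add, map_pow, map_sub, map_one, EX]
      linear_combination (1 - X) ^ 2 * e2)
  have hp : ∀ j, (coeff j k + coeff j (X * k)) % 2 = 1 := by
    have e : k + X * k = 1 + X * (k + X * k) + 2 * (2 * B + X * k - X * (X * k)) := by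
      linear_combination hB - e3
    intro j
    rw [← map_add]
    induction j with
    | zero => rw [e, map_add, map_add, num]; simp
    | succ j ih =>
      rw [e, map_add, map_add, num, coeff_succ_X_mul, coeff_one, if_neg j.succ_ne_zero]; omega
  simp only [hB, map_add, map_neg, num, coeff_one] at hz hw
  have b4 : ∀ n, 0 < n → coeff (4 * n) B = coeff n B + 18 * coeff n (X * k) := fun n hn => by
    have := (hw n).1
    split_ifs at this <;> omega
  refine ⟨fun t j => ?_, fun j r hr => ⟨?_, fun t => ?_⟩⟩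
  · induction t with
    | zero =>
      have := (hw j).2.2.1
      have := hp j
      simp only [pow_zero, one_mul]
      split_ifs at * <;> omega
    | succ t ih => rw [pow_succ', mul_assoc, b4 _ (by positivity)]; omega
  · have := hw j
    have := hp j
    rcases hr with rfl | rfl <;> split_ifs at * <;> omega
  · induction t with
    | zero =>
      have := hw j
      have := hz j
      rw [zero_add, pow_one, b4 _ (by omega)]
      rcases hr with rfl | rfl <;> split_ifs at * <;> omega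
    | succ t ih =>
      rw [pow_succ', mul_assoc, b4 _ (by have : 0 < 4 * j + r := by omega
                                         positivity), ih.symm]
      rw [pow_succ', mul_assoc, (hz _).1]
      omega

lemma sq2 (B : ℤ⟦X⟧) (n : ℕ) : coeff n (B ^ 2) % 2 = (if 2 ∣ n then coeff (n / 2) B else 0) % 2 := by
  have h := MvPowerSeries.map_frobenius_expand (f := B.map (Int.castRingHom (ZMod 2))) 2 two_ne_zero
  rw [ZMod.frobenius_zmod, MvPowerSeries.map_id] at h
  have h2 : expand 2 two_ne_zero (B.map (Int.castRingHom (ZMod 2))) =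
      (B ^ 2).map (Int.castRingHom (ZMod 2)) := by rw [map_pow]; exact h
  have := congrArg (coeff n) h2
  rw [coeff_expand, coeff_map, coeff_map] at this
  refine (ZMod.intCast_eq_intCast_iff' _ _ 2).1 ?_
  split_ifs at this ⊢ with h
  · exact this.symm
  · simpa using this.symm

lemma inv_pow {R : Type} [CommRing R] {c D V : R} (h : V * (1 + c * D) = 1) (u : ℕ) :
    ∃ F, V ^ u = 1 - u * (c * D) + ((u + 1).choose 2 : ℕ) * (c ^ 2 * D ^ 2) + c ^ 3 * F := by
  induction u with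
  | zero => exact ⟨0, by simp⟩
  | succ u ih =>
    obtain ⟨F, hF⟩ := ih
    have e : V = 1 - c * D + c ^ 2 * D ^ 2 - c ^ 3 * D ^ 3 * V := by
      linear_combination (1 - c * D + c ^ 2 * D ^ 2) * h
    rw [pow_succ, hF, Nat.choose_succ_succ' (u + 1) 1, Nat.choose_one_right]
    push_cast
    generalize (((u + 1).choose 2 : ℕ) : R) = T
    exact ⟨F * V - D ^ 3 * V * (1 + u + T), by
      linear_combination e + (T * c ^ 2 * D ^ 2 - u * c * D * (1 - c * D)) * h⟩

lemma dbl {W B : ℤ⟦X⟧} (h : W = 1 + 4 * B) (a : ℕ) : ∃ G, W ^ 2 ^ a =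
    1 + 2 ^ (a + 2) * (B + 2 * (((min a 1 : ℕ) : ℤ⟦X⟧) * B ^ 2 + 2 * (((min a 1 : ℕ) : ℤ⟦X⟧) * G))) := by
  induction a with
  | zero => exact ⟨0, by simp [h]; norm_num⟩
  | succ a ih =>
    obtain ⟨G, hG⟩ := ih
    rw [pow_succ, pow_mul, hG]
    rcases a with _ | a
    · exact ⟨0, by simp; ring⟩
    · simp only [show min (a + 1) 1 = 1 by omega, show min (a + 1 + 1) 1 = 1 by omega, Nat.cast_one]
      exact ⟨G + 2 ^ a * (B + 2 * (B ^ 2 + 2 * G)) ^ 2, by ring⟩

lemma link (m n : ℕ) {U : ℤ⟦X⟧} (hU : U * H = 1) : S m n = coeff n (U ^ m) := by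
  have h1 : ∀ N, H = (1 - X) * (∏ i ∈ range N, (1 - X ^ 4 ^ i) ^ 3) *
      expand (4 ^ N) (by positivity) KK := by
    intro N
    induction N with
    | zero => simp [H]
    | succ N ih =>
      rw [ih, prod_range_succ]
      conv_lhs => rw [KK_eq]
      simp only [map_mul, map_pow, map_sub, map_one, expand_X, E, pow_succ 4 N]
      rw [expand_mul _ (by positivity) _ (by norm_num)]
      ring
  have h2 : (geo 1 * ∏ i ∈ range (n + 1), geo (4 ^ i) ^ 3) *
      ((1 - X) * ∏ i ∈ range (n + 1), (1 - X ^ 4 ^ i) ^ 3) = 1 := by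
    have := geo_mul 1 one_pos
    rw [pow_one] at this
    rw [mul_mul_mul_comm, this, ← prod_mul_distrib, one_mul]
    exact prod_eq_one fun i _ => by rw [← mul_pow, geo_mul _ (by positivity), one_pow]
  have h3 : geo 1 * ∏ i ∈ range (n + 1), geo (4 ^ i) ^ 3 =
      U * expand (4 ^ (n + 1)) (by positivity) KK := by
    rw [h1 (n + 1)] at hU
    linear_combination (U * expand (4 ^ (n + 1)) (by positivity) KK) * h2 -
      (geo 1 * ∏ i ∈ range (n + 1), geo (4 ^ i) ^ 3) * hU
  have h4 : (X : ℤ⟦X⟧) ^ (n + 1) ∣ expand (4 ^ (n + 1)) (by positivity) KK - 1 := by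
    rw [X_pow_dvd_iff]
    intro j hj
    rw [map_sub, coeff_expand, coeff_one]
    rcases Nat.eq_zero_or_pos j with rfl | h
    · simp [KK, K]
    · rw [if_neg (Nat.not_dvd_of_pos_of_lt h (hj.trans (Nat.lt_pow_self (by norm_num)))), if_neg h.ne']
      simp
  have h5 := X_pow_dvd_iff.1 ((h4.trans (sub_dvd_pow_sub_pow _ 1 m)).mul_left (U ^ m)) n n.lt_succ_self
  simp only [S, mul_comm m 3, pow_mul]
  rw [prod_pow, ← mul_pow, h3, mul_pow]
  rw [one_pow, mul_sub, mul_one, map_sub] at h5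
  linarith

lemma phi_eq {N q : ℤ} {w : ℕ} (h : N = 2 ^ w * q) (hq : q % 2 = 1) : phi4 N = w / 2 := by
  have : {s | (4 : ℤ) ^ s ∣ N} = Set.Iic (w / 2) := by
    ext s
    simp only [Set.mem_ofPred_eq, Set.mem_Iic, h]
    rw [show (4 : ℤ) = 2 ^ 2 by norm_num, ← pow_mul]
    constructor
    · intro hd
      by_contra hn
      have := (pow_dvd_pow 2 (by omega : w + 1 ≤ 2 * s)).trans hd
      rw [pow_succ, mul_dvd_mul_iff_left (by positivity)] at this
      omega
    · exact fun hs => (pow_dvd_pow 2 (by omega)).mul_right _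
  rw [phi4, this, csSup_Iic]

lemma main (m : ℕ) (m0 : 0 < m) (hm : m % 8 ≠ 6) : ∃ g : ℕ → ℕ → ℕ, (∀ t r, g (t + 3) r = g (t + 1) r) ∧
    ∀ t j r, r = 1 ∨ r = 2 ∨ r = 3 → phi4 (S m (4 ^ t * (4 * j + r))) = g t r := by
  have hU : invOfUnit H 1 * H = 1 := invOfUnit_mul H 1 (by simpa using H0)
  simp only [link m _ hU]
  generalize invOfUnit H 1 = U at hU
  obtain ⟨B, hB, b2, b1⟩ := exB
  obtain ⟨A, hA⟩ := exA
  obtain ⟨a, u, hu, e⟩ := Nat.exists_eq_two_pow_mul_odd (n := (m + 1) / 2) (by omega)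
  obtain ⟨G, hG⟩ := dbl hB a
  obtain ⟨F, hF⟩ := inv_pow (V := (U ^ 2) ^ 2 ^ a) (by
    rw [← hG, ← mul_pow, ← mul_pow, hU, one_pow, one_pow]) u
  rw [← pow_mul, ← e, ← pow_mul] at hF
  have u1 : (u : ℤ) % 2 = 1 := by have := Nat.odd_iff.1 hu; omega
  have n0 : ∀ t j r, r = 1 ∨ r = 2 ∨ r = 3 → coeff (4 ^ t * (4 * j + r)) (1 : ℤ⟦X⟧) = 0 :=
    fun t j r hr => by
      have : 0 < 4 * j + r := by omega
      rw [coeff_one, if_neg (by positivity)]
  have mulodd : ∀ x : ℤ, x % 2 = 1 → (u * x) % 2 = 1 := fun x hx => by rw [Int.mul_emod, u1, hx]; rfl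
  rcases Nat.mod_two_eq_zero_or_one m with h2 | h2
  · rw [show 2 * ((m + 1) / 2) = m by omega] at hF
    have sqo : ∀ t j r, r = 1 ∨ r = 3 → coeff (4 ^ (t + 1) * (4 * j + r)) (B ^ 2) % 2 = 1 := by
      intro t j r hr
      have e1 : 4 ^ (t + 1) * (4 * j + r) = 2 * (4 ^ t * (4 * (2 * j + r / 2) + 2)) := by
        rcases hr with rfl | rfl <;> norm_num <;> ring
      rw [sq2, e1, if_pos (dvd_mul_right _ _), Nat.mul_div_cancel_left _ two_pos, b2]
    have sqe : ∀ j r, r = 1 ∨ r = 3 → coeff (4 * j + r) (B ^ 2) % 2 = 0 := by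
      intro j r hr
      rw [sq2, if_neg (by omega)]; rfl
    rcases a with _ | a
    · obtain ⟨T, hT⟩ : ∃ T, (u + 1).choose 2 = 2 * T + 1 := by
        obtain ⟨s, rfl⟩ : ∃ s, u = 4 * s + 1 := ⟨u / 4, by have := Nat.odd_iff.1 hu; omega⟩
        refine ⟨4 * s ^ 2 + 3 * s, ?_⟩
        rw [Nat.choose_two_right]
        exact Nat.div_eq_of_eq_mul_right two_pos (by simp; ring)
      have hc : ∀ n, coeff n (U ^ m) = coeff n 1 - 4 * (u * coeff n B) + 16 * coeff n (B ^ 2) +
          32 * coeff n ((T : ℤ⟦X⟧) * B ^ 2 + 2 * F) := fun n => by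
        have : U ^ m = 1 - 4 * (u * B) + 16 * B ^ 2 + 32 * ((T : ℤ⟦X⟧) * B ^ 2 + 2 * F) := by
          rw [hF, hT]; push_cast; simp; ring
        rw [this, map_add, map_add, map_sub, num, num, num, nc]
      refine ⟨fun t r => if r = 2 ∨ t = 0 then 1 else 2, fun t r => by simp, fun t j r hr => ?_⟩
      rw [hc, n0 t j r hr]
      generalize coeff (4 ^ t * (4 * j + r)) ((T : ℤ⟦X⟧) * B ^ 2 + 2 * F) = y
      by_cases r2 : r = 2
      · subst r2
        have := mulodd _ (b2 t j)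
        exact (phi_eq (w := 2) (q := -(u * coeff (4 ^ t * (4 * j + 2)) B) +
          4 * coeff (4 ^ t * (4 * j + 2)) (B ^ 2) + 8 * y) (by ring) (by omega)).trans (by simp)
      have hr' : r = 1 ∨ r = 3 := by omega
      rcases t with _ | t
      · obtain ⟨x, hx⟩ : ∃ x, coeff (4 * j + r) B = 2 * x :=
          ⟨coeff (4 * j + r) B / 2, by have := (b1 j r hr').1; omega⟩
        have := mulodd x (by have := (b1 j r hr').1; omega)
        rw [pow_zero, one_mul, hx]
        exact (phi_eq (w := 3) (q := -(u * x) + 2 * coeff (4 * j + r) (B ^ 2) + 4 * y) (by ring)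
          (by omega)).trans (by simp)
      · obtain ⟨x, hx⟩ := Int.dvd_of_emod_eq_zero ((b1 j r hr').2 t)
        have := sqo t j r hr'
        rw [hx]
        exact (phi_eq (w := 4) (q := -2 * (u * x) + coeff (4 ^ (t + 1) * (4 * j + r)) (B ^ 2) + 2 * y)
          (by ring) (by omega)).trans (by simp [r2])
    · obtain ⟨Y, hY⟩ : ∃ Y, U ^ m = 1 + 2 ^ (a + 3) * (4 * Y - u * B - 2 * (u * B ^ 2)) := by
        rw [hF]
        simp only [show min (a + 1) 1 = 1 by omega, Nat.cast_one, one_mul]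
        generalize (((u + 1).choose 2 : ℕ) : ℤ⟦X⟧) = T
        exact ⟨2 ^ (a + 1) * T * (B + 2 * (B ^ 2 + 2 * G)) ^ 2 - u * G + 2 ^ (2 * a + 4) * F, by ring⟩
      refine ⟨fun t r => if r = 2 then (a + 3) / 2 else (a + 4) / 2, fun t r => rfl, fun t j r hr => ?_⟩
      rw [hY, map_add, n0 t j r hr, p2, map_sub, map_sub, num, num, nc, nc, zero_add]
      generalize coeff (4 ^ t * (4 * j + r)) Y = y
      by_cases r2 : r = 2
      · subst r2
        have := mulodd _ (b2 t j)
        exact (phi_eq rfl (by omega)).trans (by simp)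
      have hr' : r = 1 ∨ r = 3 := by omega
      obtain ⟨x, hx, x1⟩ : ∃ x, coeff (4 ^ t * (4 * j + r)) B = 2 * x ∧
          (x + coeff (4 ^ t * (4 * j + r)) (B ^ 2)) % 2 = 1 := by
        refine ⟨coeff (4 ^ t * (4 * j + r)) B / 2, ?_⟩
        rcases t with _ | t
        · have := (b1 j r hr').1
          have := sqe j r hr'
          rw [pow_zero, one_mul]; omega
        · have := (b1 j r hr').2 t
          have := sqo t j r hr'
          omega
      have := mulodd _ x1
      rw [hx]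
      exact (phi_eq (w := a + 4) (q := 2 * y - u * (x + coeff (4 ^ t * (4 * j + r)) (B ^ 2))) (by ring)
        (by omega)).trans (by simp [r2])
  · rw [show 2 * ((m + 1) / 2) = m + 1 by omega] at hF
    obtain ⟨Y, hY⟩ : ∃ Y, U ^ m = H + 2 ^ (a + 2) * (2 * Y - u * B) := by
      have : U ^ m = U ^ (m + 1) * H := by rw [pow_succ, mul_assoc, hU, mul_one]
      rw [this, hF]
      generalize (((u + 1).choose 2 : ℕ) : ℤ⟦X⟧) = T
      generalize ((min a 1 : ℕ) : ℤ⟦X⟧) * B ^ 2 + 2 * (((min a 1 : ℕ) : ℤ⟦X⟧) * G) = Z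
      exact ⟨(2 ^ (a + 1) * T * (B + 2 * Z) ^ 2 + 2 ^ (2 * a + 3) * F - u * Z) * H - u * B * A, by
        linear_combination (-(2 ^ (a + 2) * u * B)) * hA⟩
    refine ⟨fun t r => if r = 2 then (if t % 2 = 0 then 0 else (a + 2) / 2) else
      (if t % 2 = 0 then 1 else 0), fun t r => by simp [Nat.add_mod], fun t j r hr => ?_⟩
    rw [hY, map_add, p2, map_sub, num, nc, (Ht _ _).2]
    generalize coeff (4 ^ t * (4 * j + r)) Y = y
    have k1 := K_odd j
    obtain ⟨-, k2, k3, k4⟩ := K4 j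
    obtain ⟨-, h3, h4, h5⟩ := H4 j
    by_cases r2 : r = 2
    · subst r2
      have := mulodd _ (b2 t j)
      generalize (u : ℤ) * coeff (4 ^ t * (4 * j + 2)) B = x at *
      simp only [if_true]
      split_ifs
      · exact phi_eq (w := 1) (q := 3 * K j + 2 * (2 ^ a * (2 * y - x))) (by rw [h4]; ring) (by omega)
      · exact phi_eq (q := 2 * y - x) (by rw [h4, k3]; ring) (by omega)
    have hr' : r = 1 ∨ r = 3 := by omega
    obtain ⟨x, hx⟩ : ∃ x, coeff (4 ^ t * (4 * j + r)) B = 2 * x := by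
      refine ⟨coeff (4 ^ t * (4 * j + r)) B / 2, ?_⟩
      rcases t with _ | t
      · have := (b1 j r hr').1
        rw [pow_zero, one_mul]; omega
      · have := (b1 j r hr').2 t
        omega
    rw [hx]
    simp only [r2, if_false]
    split_ifs
    · exact phi_eq (w := 2) (q := -K j + 2 * (2 ^ a * (y - u * x)))
        (by rcases hr' with rfl | rfl <;> simp only [h3, h5] <;> ring) (by omega)
    · rcases hr' with rfl | rfl
      · exact phi_eq (w := 1) (q := -K j + 2 * (2 ^ (a + 1) * (y - u * x))) (by rw [h3, k2]; ring) (by omega)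
      · exact phi_eq (w := 1) (q := K j + 2 * (2 ^ (a + 1) * (y - u * x))) (by rw [h5, k4]; ring) (by omega)

lemma typ (n : ℕ) (h : 0 < n) : ∃ t j r, (r = 1 ∨ r = 2 ∨ r = 3) ∧ n = 4 ^ t * (4 * j + r) := by
  induction n using Nat.strong_induction_on with
  | _ n ih =>
    by_cases h4 : n % 4 = 0
    · obtain ⟨t, j, r, a, b⟩ := ih (n / 4) (by omega) (by omega)
      exact ⟨t + 1, j, r, a, by rw [pow_succ', mul_assoc, ← b]; omega⟩
    · exact ⟨0, n / 4, n % 4, by omega, by omega⟩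

theorem result (m : ℕ) (m0 : 0 < m) (hm : m % 8 ≠ 6) : (kernel fun n => phi4 (S m n)).Finite := by
  obtain ⟨g, g1, g2⟩ := main m m0 hm
  have per : ∀ t, ∃ s < 3, (t = 0 → s = 0) ∧ ∀ v r, g (t + v) r = g (s + v) r := fun t => by
    induction t using Nat.strong_induction_on with
    | _ t ih =>
      by_cases h : t < 3
      · exact ⟨t, h, id, fun _ _ => rfl⟩
      · obtain ⟨t, rfl⟩ : ∃ s, t = s + 3 := ⟨t - 3, by omega⟩
        obtain ⟨s, a, -, b⟩ := ih (t + 1) (by omega)
        exact ⟨s, a, by omega, fun v r => by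
          rw [← b, add_right_comm, g1, add_right_comm]⟩
  refine (((Set.finite_lt_nat 3).image fun s n => phi4 (S m (4 ^ s * n))).union
    (((Set.finite_lt_nat 3).prod (Set.finite_lt_nat 4)).image fun p _ => g p.1 p.2)).subset ?_
  rintro _ ⟨i, j, hj, rfl⟩
  rcases Nat.eq_zero_or_pos j with rfl | j0
  · obtain ⟨s, a, -, b⟩ := per i
    refine Or.inl ⟨s, a, funext fun n => ?_⟩
    rcases Nat.eq_zero_or_pos n with rfl | n0
    · simp
    · obtain ⟨t, j, r, c, rfl⟩ := typ n n0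
      simp only [add_zero, ← mul_assoc, ← pow_add, g2 _ _ _ c, b]
  · obtain ⟨t, j, r, c, rfl⟩ := typ j j0
    obtain ⟨s, a, -, b⟩ := per t
    refine Or.inr ⟨(s, r), ⟨a, by simp; omega⟩, funext fun n => ?_⟩
    have lt : t < i := (Nat.pow_lt_pow_iff_right (by norm_num : 1 < 4)).1
      (lt_of_le_of_lt (Nat.le_mul_of_pos_right _ (by omega)) hj)
    obtain ⟨d, rfl⟩ := Nat.exists_eq_add_of_lt lt
    have := g2 t (4 ^ d * n + j) r c
    rw [show 4 ^ t * (4 * (4 ^ d * n + j) + r) = 4 ^ (t + d + 1) * n + 4 ^ t * (4 * j + r) by ring] at this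
    exact (this.trans (b 0 r)).symm

end Pool.Agent.Results.MP_b3d406_nt.Auto
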